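import Mathlib

/-!
# Reachability in a union of two graphs reduces to the emptiness of `P_{A,B}`

Letters: `none` is a tick, `some (inl b)` an edge mark, `some (inr true)` is `next`, `some (inr false)` is
`select`. A node `v` is written as `v` ticks. The automaton `gad R lab src tgt` accepts the words
`next^i select v_0 e_1 v_1 ... e_m v_m select next^r` with `v_0 = src`, `v_m = tgt` and
`R i v_(k-1) v_k` whenever `e_k = lab`. The automaton `A` checks the edges with the mark `true` forwards, the
automaton `B`, which reads the reversed word, checks the edges with the mark `false` backwards.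
-/

set_option autoImplicit false

namespace Pool.Agent.Results.MP_cde0c0_lc.BranchingPrograms

/-- the five letters -/
abbrev Let : Type := Option (Bool ⊕ Bool)

/-- the states: dead, accepting, the pointer `i`, and `(i, o, c)`: `c` ticks of the present node are read,
and `o` is the previous node and the mark of the edge, or `none` at the first node -/
abbrev St (n s : ℕ) : Type :=
  Option (Option (Fin n ⊕ (Fin n × Option (Fin (s + 1) × Bool) × Fin (s + 1))))

variable {n s : ℕ}

/-- the pointer at `i`, dead if `n ≤ i` -/
def ptr (n s i : ℕ) : St n s := if h : i < n then some (some (Sum.inl ⟨i, h⟩)) else none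

/-- the state `(i, o, c)` -/
def run (i : Fin n) (o : Option (Fin (s + 1) × Bool)) (c : Fin (s + 1)) : St n s :=
  some (some (Sum.inr (i, o, c)))

/-- the node `c` may follow `o` -/
def ok (R : Fin n → Fin (s + 1) → Fin (s + 1) → Bool) (lab : Bool) (src : Fin (s + 1)) (i : Fin n) :
    Option (Fin (s + 1) × Bool) → Fin (s + 1) → Bool
  | none, c => decide (c = src)
  | some (u, b), c => !(b == lab) || R i u c

/-- one step -/
def gstep (R : Fin n → Fin (s + 1) → Fin (s + 1) → Bool) (lab : Bool) (src tgt : Fin (s + 1)) :
    St n s → Let → St n s
  | some (some (Sum.inl i)), some (Sum.inr true) => ptr n s (i.val + 1)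
  | some (some (Sum.inl i)), some (Sum.inr false) => run i none 0
  | some (some (Sum.inr (i, o, c))), none =>
      if h : c.val + 1 < s + 1 then run i o ⟨c.val + 1, h⟩ else none
  | some (some (Sum.inr (i, o, c))), some (Sum.inl b) =>
      if ok R lab src i o c = true then run i (some (c, b)) 0 else none
  | some (some (Sum.inr (i, o, c))), some (Sum.inr false) =>
      if ok R lab src i o c = true ∧ c = tgt then some none else none
  | some none, some (Sum.inr true) => some none
  | _, _ => none

/-- the automaton for the relations `R` -/
def gad (R : Fin n → Fin (s + 1) → Fin (s + 1) → Bool) (lab : Bool) (src tgt : Fin (s + 1)) :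
    DFA Let (St n s) where
  step := gstep R lab src tgt
  start := ptr n s 0
  accept := {some none}

/-- the automaton of the relations `X` -/
def autA (X : Fin n → Fin (s + 1) → Fin (s + 1) → Bool) (src tgt : Fin (s + 1)) :
    DFA Let (St n s) := gad X true src tgt

/-- the automaton of the relations `Y`, for the reversed word -/
def autB (Y : Fin n → Fin (s + 1) → Fin (s + 1) → Bool) (src tgt : Fin (s + 1)) :
    DFA Let (St n s) := gad (fun j u v => Y j v u) false tgt src

section aux

/-- the code of a path -/
def enc : Fin (s + 1) → List (Bool × Fin (s + 1)) → List Let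
  | u, [] => List.replicate u.val none
  | u, (b, v) :: es => List.replicate u.val none ++ some (Sum.inl b) :: enc v es

/-- the code without the first node -/
def encTail : List (Bool × Fin (s + 1)) → List Let
  | [] => []
  | (b, v) :: es => some (Sum.inl b) :: enc v es

theorem enc_eq (u : Fin (s + 1)) (es : List (Bool × Fin (s + 1))) :
    enc u es = List.replicate u.val none ++ encTail es := by
  cases es with
  | nil => simp [enc, encTail]
  | cons e es => rfl

/-- the path has the right edges and ends in `tgt` -/
def PathD (R : Fin n → Fin (s + 1) → Fin (s + 1) → Bool) (lab : Bool) (tgt : Fin (s + 1))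
    (i : Fin n) : Fin (s + 1) → List (Bool × Fin (s + 1)) → Prop
  | u, [] => u = tgt
  | u, (b, v) :: es => (b = lab → R i u v = true) ∧ PathD R lab tgt i v es

/-- the path has the right edges -/
def Along (R : Fin n → Fin (s + 1) → Fin (s + 1) → Bool) (lab : Bool)
    (i : Fin n) : Fin (s + 1) → List (Bool × Fin (s + 1)) → Prop
  | _, [] => True
  | u, (b, v) :: es => (b = lab → R i u v = true) ∧ Along R lab i v es

/-- the reversed path -/
def revAcc : Fin (s + 1) → List (Bool × Fin (s + 1)) → List (Bool × Fin (s + 1)) →
    Fin (s + 1) × List (Bool × Fin (s + 1))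
  | u, [], acc => (u, acc)
  | u, (b, v) :: es, acc => revAcc v es ((b, u) :: acc)

theorem enc_rev (es : List (Bool × Fin (s + 1))) : ∀ (u : Fin (s + 1))
    (acc : List (Bool × Fin (s + 1))),
    enc (revAcc u es acc).1 (revAcc u es acc).2 = (enc u es).reverse ++ encTail acc := by
  induction es with
  | nil =>
    intro u acc
    show enc u acc = (List.replicate u.val none).reverse ++ encTail acc
    rw [enc_eq, List.reverse_replicate]
  | cons e es ih =>
    intro u acc
    obtain ⟨b, v⟩ := e
    show enc (revAcc v es ((b, u) :: acc)).1 (revAcc v es ((b, u) :: acc)).2 =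
      (List.replicate u.val none ++ some (Sum.inl b) :: enc v es).reverse ++ encTail acc
    rw [ih]
    show (enc v es).reverse ++ some (Sum.inl b) :: enc u acc = _
    rw [enc_eq u acc]
    simp [List.reverse_append, List.reverse_replicate]

theorem repl_inj (a : ℕ) : ∀ (a' : ℕ) (r r' : List Let), r.head? ≠ some none →
    r'.head? ≠ some none →
    List.replicate a (none : Let) ++ r = List.replicate a' none ++ r' → a = a' ∧ r = r' := by
  induction a with
  | zero =>
    intro a' r r' hr hr' h
    cases a' with
    | zero => exact ⟨rfl, by simpa using h⟩
    | succ a' =>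
      rw [List.replicate_zero, List.nil_append, List.replicate_succ, List.cons_append] at h
      rw [h] at hr
      exact absurd rfl hr
  | succ a ih =>
    intro a' r r' hr hr' h
    cases a' with
    | zero =>
      rw [List.replicate_zero, List.nil_append, List.replicate_succ, List.cons_append] at h
      rw [← h] at hr'
      exact absurd rfl hr'
    | succ a' =>
      rw [List.replicate_succ, List.replicate_succ, List.cons_append, List.cons_append] at h
      obtain ⟨h1, h2⟩ := ih a' r r' hr hr' (List.cons_injective h)
      exact ⟨by rw [h1], h2⟩

theorem tail_head (es : List (Bool × Fin (s + 1))) : (encTail es).head? ≠ some none := by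
  cases es with
  | nil => simp [encTail]
  | cons e es =>
    show some (some (Sum.inl e.1)) ≠ some none
    simp

theorem enc_inj (es : List (Bool × Fin (s + 1))) : ∀ (u u' : Fin (s + 1))
    (es' : List (Bool × Fin (s + 1))), enc u es = enc u' es' → u = u' ∧ es = es' := by
  induction es with
  | nil =>
    intro u u' es' h
    rw [enc_eq u, enc_eq u'] at h
    obtain ⟨h1, h2⟩ := repl_inj _ _ _ _ (tail_head _) (tail_head _) h
    refine ⟨Fin.ext h1, ?_⟩
    cases es' with
    | nil => rfl
    | cons e es' => exact absurd h2 (by simp [encTail])
  | cons e es ih =>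
    intro u u' es' h
    rw [enc_eq u, enc_eq u'] at h
    obtain ⟨h1, h2⟩ := repl_inj _ _ _ _ (tail_head _) (tail_head _) h
    refine ⟨Fin.ext h1, ?_⟩
    cases es' with
    | nil => exact absurd h2 (by simp [encTail])
    | cons e' es' =>
      obtain ⟨b, v⟩ := e
      obtain ⟨b', v'⟩ := e'
      have h3 : some (Sum.inl b) :: enc v es = some (Sum.inl b') :: enc v' es' := h2
      rw [List.cons.injEq] at h3
      obtain ⟨h4, h5⟩ := h3
      obtain ⟨h6, h7⟩ := ih v v' es' h5
      rw [h6, h7]
      have h8 : b = b' := by simpa using h4
      rw [h8]

theorem path_rev (Y : Fin n → Fin (s + 1) → Fin (s + 1) → Bool) (src : Fin (s + 1)) (j : Fin n)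
    (es : List (Bool × Fin (s + 1))) : ∀ (u : Fin (s + 1)) (acc : List (Bool × Fin (s + 1))),
    PathD (fun j u v => Y j v u) false src j (revAcc u es acc).1 (revAcc u es acc).2 ↔
      (Along Y false j u es ∧ PathD (fun j u v => Y j v u) false src j u acc) := by
  induction es with
  | nil =>
    intro u acc
    exact ⟨fun h => ⟨trivial, h⟩, fun h => h.2⟩
  | cons e es ih =>
    intro u acc
    obtain ⟨b, v⟩ := e
    have h1 := ih v ((b, u) :: acc)
    have h2 : PathD (fun j u v => Y j v u) false src j v ((b, u) :: acc) ↔
      ((b = false → Y j u v = true) ∧ PathD (fun j u v => Y j v u) false src j u acc) := Iff.rfl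
    have h3 : Along Y false j u ((b, v) :: es) ↔
      ((b = false → Y j u v = true) ∧ Along Y false j v es) := Iff.rfl
    rw [h3]
    rw [h2] at h1
    constructor
    · intro h
      obtain ⟨h4, h5, h6⟩ := h1.1 h
      exact ⟨⟨h5, h4⟩, h6⟩
    · rintro ⟨⟨h5, h4⟩, h6⟩
      exact h1.2 ⟨h4, h5, h6⟩

theorem rev_fst (X : Fin n → Fin (s + 1) → Fin (s + 1) → Bool) (lab : Bool) (tgt : Fin (s + 1))
    (i : Fin n) (es : List (Bool × Fin (s + 1))) : ∀ (u : Fin (s + 1))
    (acc : List (Bool × Fin (s + 1))), PathD X lab tgt i u es → (revAcc u es acc).1 = tgt := by
  induction es with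
  | nil => intro u acc h; exact h
  | cons e es ih =>
    intro u acc h
    exact ih _ _ h.2

theorem to_path (X Y : Fin n → Fin (s + 1) → Fin (s + 1) → Bool) (tgt : Fin (s + 1)) (i j : Fin n)
    (es : List (Bool × Fin (s + 1))) : ∀ u : Fin (s + 1), PathD X true tgt i u es →
    Along Y false j u es →
    Relation.ReflTransGen (fun u v => X i u v = true ∨ Y j u v = true) u tgt := by
  induction es with
  | nil => intro u h _; rw [show u = tgt from h]
  | cons e es ih =>
    intro u h h'
    obtain ⟨b, v⟩ := e
    refine Relation.ReflTransGen.head ?_ (ih v h.2 h'.2)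
    cases b
    · exact Or.inr (h'.1 rfl)
    · exact Or.inl (h.1 rfl)

theorem of_path (X Y : Fin n → Fin (s + 1) → Fin (s + 1) → Bool) (tgt : Fin (s + 1)) (i j : Fin n)
    (u : Fin (s + 1))
    (h : Relation.ReflTransGen (fun u v => X i u v = true ∨ Y j u v = true) u tgt) :
    ∃ es, PathD X true tgt i u es ∧ Along Y false j u es := by
  induction h using Relation.ReflTransGen.head_induction_on with
  | refl => exact ⟨[], rfl, trivial⟩
  | head h1 _ ih =>
    obtain ⟨es, h2, h3⟩ := ih
    rcases h1 with h1 | h1
    · exact ⟨(true, _) :: es, ⟨fun _ => h1, h2⟩, ⟨fun h => absurd h (by decide), h3⟩⟩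
    · exact ⟨(false, _) :: es, ⟨fun h => absurd h (by decide), h2⟩, ⟨fun _ => h1, h3⟩⟩

variable (R : Fin n → Fin (s + 1) → Fin (s + 1) → Bool) (lab : Bool) (src tgt : Fin (s + 1))

theorem eval_dead (x : List Let) : (gad R lab src tgt).evalFrom none x = none := by
  induction x with
  | nil => rfl
  | cons c x ih =>
    rw [DFA.evalFrom_cons]
    exact ih

theorem fin_sound (x : List Let) (h : (gad R lab src tgt).evalFrom (some none) x = some none) :
    x = List.replicate x.length (some (Sum.inr true)) := by
  induction x with
  | nil => rfl
  | cons c x ih =>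
    rw [DFA.evalFrom_cons] at h
    match c with
    | none =>
      have h1 : (gad R lab src tgt).step (some none) none = none := rfl
      rw [h1, eval_dead] at h
      exact absurd h (by simp)
    | some (Sum.inl b) =>
      have h1 : (gad R lab src tgt).step (some none) (some (Sum.inl b)) = none := rfl
      rw [h1, eval_dead] at h
      exact absurd h (by simp)
    | some (Sum.inr false) =>
      have h1 : (gad R lab src tgt).step (some none) (some (Sum.inr false)) = none := rfl
      rw [h1, eval_dead] at h
      exact absurd h (by simp)
    | some (Sum.inr true) =>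
      have h1 : (gad R lab src tgt).step (some none) (some (Sum.inr true)) = some none := rfl
      rw [h1] at h
      rw [List.length_cons, List.replicate_succ, ← ih h]

theorem run_sound (i : Fin n) (x : List Let) : ∀ (o : Option (Fin (s + 1) × Bool))
    (c : Fin (s + 1)), (gad R lab src tgt).evalFrom (run i o c) x = some none →
    ∃ (u : Fin (s + 1)) (es : List (Bool × Fin (s + 1))) (y : List Let) (r : ℕ),
      x = y ++ some (Sum.inr false) :: List.replicate r (some (Sum.inr true)) ∧
      List.replicate c.val none ++ y = enc u es ∧ ok R lab src i o u = true ∧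
      PathD R lab tgt i u es := by
  induction x with
  | nil =>
    intro o c h
    rw [DFA.evalFrom_nil] at h
    exact absurd h (by simp [run])
  | cons l x ih =>
    intro o c h
    rw [DFA.evalFrom_cons] at h
    match l with
    | none =>
      have h1 : (gad R lab src tgt).step (run i o c) none =
        if h : c.val + 1 < s + 1 then run i o ⟨c.val + 1, h⟩ else none := rfl
      rw [h1] at h
      by_cases hc : c.val + 1 < s + 1
      · rw [dif_pos hc] at h
        obtain ⟨u, es, y, r, h2, h3, h4, h5⟩ := ih _ _ h
        refine ⟨u, es, none :: y, r, by rw [h2]; rfl, ?_, h4, h5⟩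
        rw [← h3]
        have h6 : List.replicate (c.val + 1) (none : Let) = List.replicate c.val none ++ [none] :=
          List.replicate_succ'
        rw [h6, List.append_assoc]
        rfl
      · rw [dif_neg hc, eval_dead] at h
        exact absurd h (by simp)
    | some (Sum.inl b) =>
      have h1 : (gad R lab src tgt).step (run i o c) (some (Sum.inl b)) =
        if ok R lab src i o c = true then run i (some (c, b)) 0 else none := rfl
      rw [h1] at h
      by_cases hc : ok R lab src i o c = true
      · rw [if_pos hc] at h
        obtain ⟨u, es, y, r, h2, h3, h4, h5⟩ := ih _ _ h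
        refine ⟨c, (b, u) :: es, some (Sum.inl b) :: y, r, by rw [h2]; rfl, ?_, hc, ?_, h5⟩
        · have h6 : y = enc u es := by simpa using h3
          rw [h6]
          rfl
        · intro hb
          have h7 : (!(b == lab) || R i c u) = true := h4
          rw [hb] at h7
          simpa using h7
      · rw [if_neg hc, eval_dead] at h
        exact absurd h (by simp)
    | some (Sum.inr false) =>
      have h1 : (gad R lab src tgt).step (run i o c) (some (Sum.inr false)) =
        if ok R lab src i o c = true ∧ c = tgt then some none else none := rfl
      rw [h1] at h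
      by_cases hc : ok R lab src i o c = true ∧ c = tgt
      · rw [if_pos hc] at h
        refine ⟨c, [], [], x.length, ?_, ?_, hc.1, hc.2⟩
        · rw [List.nil_append, ← fin_sound R lab src tgt x h]
        · rw [List.append_nil]
          rfl
      · rw [if_neg hc, eval_dead] at h
        exact absurd h (by simp)
    | some (Sum.inr true) =>
      have h1 : (gad R lab src tgt).step (run i o c) (some (Sum.inr true)) = none := rfl
      rw [h1, eval_dead] at h
      exact absurd h (by simp)

theorem ptr_sound (x : List Let) : ∀ i : ℕ,
    (gad R lab src tgt).evalFrom (ptr n s i) x = some none →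
    ∃ (i' : Fin n) (t r : ℕ) (es : List (Bool × Fin (s + 1))),
      x = List.replicate t (some (Sum.inr true)) ++ some (Sum.inr false) ::
        (enc src es ++ some (Sum.inr false) :: List.replicate r (some (Sum.inr true))) ∧
      PathD R lab tgt i' src es := by
  induction x with
  | nil =>
    intro i h
    rw [DFA.evalFrom_nil] at h
    unfold ptr at h
    by_cases hi : i < n
    · rw [dif_pos hi] at h
      exact absurd h (by simp)
    · rw [dif_neg hi] at h
      exact absurd h (by simp)
  | cons c x ih =>
    intro i h
    by_cases hi : i < n
    · have hp : ptr n s i = some (some (Sum.inl ⟨i, hi⟩)) := by unfold ptr; rw [dif_pos hi]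
      rw [hp, DFA.evalFrom_cons] at h
      match c with
      | none =>
        have h1 : (gad R lab src tgt).step (some (some (Sum.inl ⟨i, hi⟩))) none = none := rfl
        rw [h1, eval_dead] at h
        exact absurd h (by simp)
      | some (Sum.inl b) =>
        have h1 : (gad R lab src tgt).step (some (some (Sum.inl ⟨i, hi⟩)))
          (some (Sum.inl b)) = none := rfl
        rw [h1, eval_dead] at h
        exact absurd h (by simp)
      | some (Sum.inr false) =>
        have h1 : (gad R lab src tgt).step (some (some (Sum.inl ⟨i, hi⟩)))
          (some (Sum.inr false)) = run ⟨i, hi⟩ none 0 := rfl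
        rw [h1] at h
        obtain ⟨u, es, y, r, h2, h3, h4, h5⟩ := run_sound R lab src tgt _ _ _ _ h
        have h6 : decide (u = src) = true := h4
        have h7 : u = src := by simpa using h6
        have h8 : y = enc u es := by simpa using h3
        refine ⟨⟨i, hi⟩, 0, r, es, ?_, h7 ▸ h5⟩
        rw [h2, h8, h7]
        rfl
      | some (Sum.inr true) =>
        have h1 : (gad R lab src tgt).step (some (some (Sum.inl ⟨i, hi⟩)))
          (some (Sum.inr true)) = ptr n s (i + 1) := rfl
        rw [h1] at h
        obtain ⟨i', t, r, es, hx, hw⟩ := ih _ h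
        refine ⟨i', t + 1, r, es, ?_, hw⟩
        rw [hx]
        rfl
    · have hp : ptr n s i = none := by unfold ptr; rw [dif_neg hi]
      rw [hp, eval_dead] at h
      exact absurd h (by simp)

theorem fin_complete (r : ℕ) : (gad R lab src tgt).evalFrom (some none)
    (List.replicate r (some (Sum.inr true))) = some none := by
  induction r with
  | zero => rfl
  | succ r ih =>
    rw [List.replicate_succ, DFA.evalFrom_cons]
    exact ih

theorem ticks (i : Fin n) (o : Option (Fin (s + 1) × Bool)) (z : List Let) : ∀ (d : ℕ)
    (c u : Fin (s + 1)), c.val + d = u.val →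
    (gad R lab src tgt).evalFrom (run i o c) (List.replicate d none ++ z) =
      (gad R lab src tgt).evalFrom (run i o u) z := by
  intro d
  induction d with
  | zero =>
    intro c u h
    have h1 : c = u := Fin.ext (by simpa using h)
    rw [h1]
    rfl
  | succ d ih =>
    intro c u h
    have hc : c.val + 1 < s + 1 := by have := u.isLt; omega
    have h1 : (gad R lab src tgt).step (run i o c) none =
      if h : c.val + 1 < s + 1 then run i o ⟨c.val + 1, h⟩ else none := rfl
    rw [List.replicate_succ, List.cons_append, DFA.evalFrom_cons, h1, dif_pos hc]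
    exact ih _ _ (by simp only; omega)

theorem run_complete (i : Fin n) (r : ℕ) (es : List (Bool × Fin (s + 1))) : ∀
    (o : Option (Fin (s + 1) × Bool)) (u : Fin (s + 1)), ok R lab src i o u = true →
    PathD R lab tgt i u es →
    (gad R lab src tgt).evalFrom (run i o 0)
      (enc u es ++ some (Sum.inr false) :: List.replicate r (some (Sum.inr true))) =
      some none := by
  induction es with
  | nil =>
    intro o u ho hp
    have h1 : (gad R lab src tgt).step (run i o u) (some (Sum.inr false)) =
      if ok R lab src i o u = true ∧ u = tgt then some none else none := rfl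
    show (gad R lab src tgt).evalFrom (run i o 0) (List.replicate u.val none ++
      some (Sum.inr false) :: List.replicate r (some (Sum.inr true))) = some none
    rw [ticks R lab src tgt i o _ u.val 0 u (by simp), DFA.evalFrom_cons, h1, if_pos ⟨ho, hp⟩]
    exact fin_complete R lab src tgt r
  | cons e es ih =>
    intro o u ho hp
    obtain ⟨b, v⟩ := e
    have h1 : (gad R lab src tgt).step (run i o u) (some (Sum.inl b)) =
        if ok R lab src i o u = true then run i (some (u, b)) 0 else none := rfl
    have h2 : enc u ((b, v) :: es) ++ some (Sum.inr false) ::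
        List.replicate r (some (Sum.inr true)) = List.replicate u.val none ++
        (some (Sum.inl b) :: (enc v es ++ some (Sum.inr false) ::
        List.replicate r (some (Sum.inr true)))) := by
      rw [enc, List.append_assoc]
      rfl
    rw [h2, ticks R lab src tgt i o _ u.val 0 u (by simp), DFA.evalFrom_cons, h1, if_pos ho]
    refine ih _ v ?_ hp.2
    show (!(b == lab) || R i u v) = true
    by_cases hb : b = lab
    · rw [hp.1 hb]; simp
    · simp [hb]

theorem ptr_complete (i : ℕ) (hi : i < n) (x : List Let) : ∀ t j : ℕ, j + t = i →
    (gad R lab src tgt).evalFrom (ptr n s j)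
      (List.replicate t (some (Sum.inr true)) ++ some (Sum.inr false) :: x) =
      (gad R lab src tgt).evalFrom (run ⟨i, hi⟩ none 0) x := by
  intro t
  induction t with
  | zero =>
    intro j hj
    have hp : ptr n s j = some (some (Sum.inl ⟨i, hi⟩)) := by
      unfold ptr
      rw [dif_pos (by omega)]
      congr 3
      exact Fin.ext (by simpa using hj)
    rw [List.replicate_zero, List.nil_append, DFA.evalFrom_cons, hp]
    rfl
  | succ t ih =>
    intro j hj
    have hjn : j < n := by omega
    have hp : ptr n s j = some (some (Sum.inl ⟨j, hjn⟩)) := by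
      unfold ptr
      rw [dif_pos hjn]
    have h1 : (gad R lab src tgt).step (some (some (Sum.inl ⟨j, hjn⟩))) (some (Sum.inr true)) =
      ptr n s (j + 1) := rfl
    rw [List.replicate_succ, List.cons_append, DFA.evalFrom_cons, hp, h1]
    exact ih (j + 1) (by omega)

theorem gad_complete (i : Fin n) (r : ℕ) (es : List (Bool × Fin (s + 1)))
    (hp : PathD R lab tgt i src es) :
    List.replicate i.val (some (Sum.inr true)) ++ some (Sum.inr false) ::
      (enc src es ++ some (Sum.inr false) :: List.replicate r (some (Sum.inr true))) ∈
      (gad R lab src tgt).accepts := by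
  show (gad R lab src tgt).evalFrom (ptr n s 0) _ = some none
  rw [ptr_complete R lab src tgt i.val i.isLt _ i.val 0 (by omega)]
  exact run_complete R lab src tgt _ r es none src (by simp [ok]) hp

/-- the ticks and the edge marks of a word -/
def mid (x : List Let) : List Let := x.filter (fun l => !(Option.any Sum.isRight l))

theorem mid_repl (t : ℕ) : mid (List.replicate t (some (Sum.inr true))) = [] := by
  induction t with
  | zero => rfl
  | succ t ih => rw [List.replicate_succ]; exact ih

theorem mid_ticks (t : ℕ) : mid (List.replicate t none) = List.replicate t none := by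
  induction t with
  | zero => rfl
  | succ t ih =>
    rw [List.replicate_succ]
    show none :: mid (List.replicate t none) = _
    rw [ih]

theorem mid_append (x y : List Let) : mid (x ++ y) = mid x ++ mid y := List.filter_append _ _

theorem mid_enc (es : List (Bool × Fin (s + 1))) : ∀ u : Fin (s + 1), mid (enc u es) = enc u es := by
  induction es with
  | nil => intro u; exact mid_ticks _
  | cons e es ih =>
    intro u
    obtain ⟨b, v⟩ := e
    show mid (List.replicate u.val none ++ some (Sum.inl b) :: enc v es) = _
    rw [mid_append, mid_ticks]
    show List.replicate u.val none ++ some (Sum.inl b) :: mid (enc v es) = _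
    rw [ih]
    rfl

theorem mid_word (t r : ℕ) (es : List (Bool × Fin (s + 1))) (u : Fin (s + 1)) :
    mid (List.replicate t (some (Sum.inr true)) ++ some (Sum.inr false) ::
      (enc u es ++ some (Sum.inr false) :: List.replicate r (some (Sum.inr true)))) = enc u es := by
  have hsel : ∀ x : List Let, mid (some (Sum.inr false) :: x) = mid x := fun x => rfl
  rw [mid_append, mid_repl, hsel, mid_append, mid_enc, hsel, mid_repl]
  simp

end aux

/-- Reachability in the union of a graph of the first list and a graph of the second list reduces to
the emptiness of `P_{A,B}`; `autA X` depends on the first list only, `autB Y` on the second only. -/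
theorem result (X Y : Fin n → Fin (s + 1) → Fin (s + 1) → Bool) (src tgt : Fin (s + 1)) :
    ((∃ x, x ∈ (autA X src tgt).accepts ∧ x.reverse ∈ (autB Y src tgt).accepts) ↔
      ∃ i j, Relation.ReflTransGen (fun u v => X i u v = true ∨ Y j u v = true) src tgt) ∧
    Fintype.card (St n s) = n + n * ((2 * s + 3) * (s + 1)) + 2 := by
  refine ⟨⟨?_, ?_⟩, ?_⟩
  · rintro ⟨x, hA, hB⟩
    obtain ⟨i, t, r, es, hx, hi⟩ := ptr_sound _ _ _ _ x 0 hA
    obtain ⟨j, t', r', es', hx', hj⟩ := ptr_sound _ _ _ _ x.reverse 0 hB
    have h1 : mid x = enc src es := by rw [hx, mid_word]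
    have h2 : mid x.reverse = enc tgt es' := by rw [hx', mid_word]
    have h3 : mid x.reverse = (mid x).reverse := List.filter_reverse
    have h4 : enc (revAcc src es []).1 (revAcc src es []).2 = enc tgt es' := by
      rw [enc_rev, ← h2, h3, h1]
      exact List.append_nil _
    obtain ⟨h5, h6⟩ := enc_inj _ _ _ _ h4
    rw [← h5, ← h6, path_rev] at hj
    exact ⟨i, j, to_path X Y tgt i j es src hi hj.1⟩
  · rintro ⟨i, j, h⟩
    obtain ⟨es, hX, hY⟩ := of_path X Y tgt i j src h
    refine ⟨List.replicate i.val (some (Sum.inr true)) ++ some (Sum.inr false) ::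
      (enc src es ++ some (Sum.inr false) :: List.replicate j.val (some (Sum.inr true))),
      gad_complete X true src tgt i j.val es hX, ?_⟩
    have h1 : (List.replicate i.val (some (Sum.inr true)) ++ some (Sum.inr false) ::
        (enc src es ++ some (Sum.inr false) ::
          List.replicate j.val (some (Sum.inr true)))).reverse =
        List.replicate j.val (some (Sum.inr true)) ++ some (Sum.inr false) ::
        ((enc src es).reverse ++ some (Sum.inr false) ::
          List.replicate i.val (some (Sum.inr true))) := by
      simp [List.reverse_append]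
    have h2 : (enc src es).reverse = enc tgt (revAcc src es []).2 := by
      have h3 := enc_rev es src []
      rw [rev_fst X true tgt i es src [] hX] at h3
      rw [h3]
      exact (List.append_nil _).symm
    rw [h1, h2]
    refine gad_complete _ false tgt src j i.val _ ?_
    have h4 := (path_rev Y src j es src []).2 ⟨hY, rfl⟩
    rwa [rev_fst X true tgt i es src [] hX] at h4
  · simp only [St, Fintype.card_option, Fintype.card_sum, Fintype.card_prod, Fintype.card_fin,
      Fintype.card_bool]
    ring

end Pool.Agent.Results.MP_cde0c0_lc.BranchingPrograms
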