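import Pool.Agent.Lib.CDET.Main
import Pool.Agent.Lib.CDET.Pal2
import Pool.Agent.Lib.CDEP.Pal

/-!
# MP_cde0c0_lc : one-turn pushdown automata and palindromes

Emptiness of `L(P_{A,B})`, emptiness of an arbitrary one-turn pushdown automaton with `O(n)` states and
transitions, and acceptance of a palindrome by a finite automaton (deterministic or not) are equivalent up to
linear size.

(1) From a pushdown automaton `M` a nondeterministic automaton for the part of a run before the first pop and one
for the rest of the run, read backwards, are made; they read the final stack contents of the first part, with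
two further letters for moves of one of the two automata in which the stack does not change. At the turn both
must be in the same state: from the state `i` they go to the place `i` of a path, and a further letter leads down
the path. Both automata are then made deterministic and reversible by `CDEN.normalForm`.
(2) The palindromes of `L(C)` are accepted with one turn: `C` is run, its first half pushed and then popped.
(3) `L(A) # L(B)` contains a palindrome iff some `x` in `L(A)` has its reversal in `L(B)`.
-/

set_option autoImplicit false

namespace Pool.Agent.Results.MP_cde0c0_lc.OneTurn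

open CDET

/-- `M` is reversible: it has exactly one accepting state `f` and an absorbing state `d`, which is neither
the initial state nor `f`, such that every letter acts injectively on the states which it does not send
to `d`. -/
def Reversible {β σ : Type} (M : DFA β σ) : Prop :=
  ∃ d f : σ, d ≠ M.start ∧ d ≠ f ∧ M.accept = {f} ∧ (∀ b, M.step d b = d) ∧
    ∀ b s t, M.step s b = M.step t b → M.step s b ≠ d → s = t

/-- the number of transitions of a nondeterministic automaton -/
noncomputable def numTrans {α σ : Type} (M : NFA α σ) : ℕ :=
  {τ : σ × α × σ | τ.2.2 ∈ M.step τ.1 τ.2.1}.ncard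

theorem result (k : ℕ) :
    (∀ S : Type, ∃ A B : (n t : ℕ) → Set (Fin n) → (Fin n → Option S → Fin k → Fin n → Prop) →
        (Fin n → Option S → Fin n → Prop) →
        DFA Bool (Fin (2 * (3 * k + 20) * (12 * n + 2 * t + 3) + 1)),
      ∀ n t (M : PDA S (Fin k) (Fin n)), size M ≤ t →
        Reversible (A n t M.start M.push M.neutral) ∧
        Reversible (B n t M.accept M.pop M.neutral) ∧
        ((∃ w, Accepts M w) ↔ ∃ x, x ∈ (A n t M.start M.push M.neutral).accepts ∧
          x.reverse ∈ (B n t M.accept M.pop M.neutral).accepts)) ∧
    (∀ n (C : NFA (Fin k) (Fin n)), ∃ P : PDA (Fin k) (Fin k) (Fin (n + n)),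
      size P ≤ 3 * numTrans C + n ∧ ∀ w, Accepts P w ↔ w ∈ C.accepts ∧ w.reverse = w) ∧
    (∀ n m (A : DFA (Fin k) (Fin n)) (B : DFA (Fin k) (Fin m)),
      ∃ J : DFA (Option (Fin k)) (Option (Fin n ⊕ Fin m)),
        (∀ w, w ∈ J.accepts ↔
          ∃ x y, x ∈ A.accepts ∧ y ∈ B.accepts ∧ w = x.map some ++ none :: y.map some) ∧
        ((∃ w, w ∈ J.accepts ∧ w.reverse = w) ↔ ∃ x, x ∈ A.accepts ∧ x.reverse ∈ B.accepts)) := by
  refine ⟨fun S => CDET.reduction k S, fun n C => ⟨palPDA C, palPDA_size C, palPDA_accepts⟩, ?_⟩
  intro n m A B
  refine ⟨CDEP.join A B, ?_, ?_⟩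
  · intro w
    constructor
    · intro h
      obtain ⟨u, v, hw, hu, hv⟩ := CDEP.inl_of A B w A.start h
      exact ⟨u, v, hu, hv, hw⟩
    · rintro ⟨u, v, hu, hv, hw⟩
      rw [hw]
      exact CDEP.mem_join A B u v hu hv
  · rw [← CDEP.palindrome_join A B]
    constructor
    · rintro ⟨w, h1, h2⟩
      exact ⟨w, h2, h1⟩
    · rintro ⟨w, h1, h2⟩
      exact ⟨w, h2, h1⟩

end Pool.Agent.Results.MP_cde0c0_lc.OneTurn
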