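import Pool.Agent.Lib.CDEN.Final

/-!
# MP_cde0c0_lc : reversible automata over two letters

Both questions, emptiness of `L(P_{A,B})` and emptiness of `L(A) ∩ L(B)`, even for nondeterministic automata `A`
and `B`, are reduced to emptiness of the intersection of two reversible deterministic automata over two letters,
of size linear in the numbers of states and transitions and with each automaton transformed separately; for
reversible automata the two questions coincide.

Idea.  In the state `q` the letter `a` leads to the last transition with source `q` and letter `a`; an extra
letter goes down the chain of these transitions; a second extra letter chooses the present transition `τ`.  Then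
`τ` has to be forgotten reversibly: the first extra letter goes down the chain of the transitions with the same
letter and the same target as `τ`, and the automaton leaves this chain only at its first element, by an extra
letter which names `a`, to the target.  The other automaton ignores the extra letters.  In the same way the
initial choice is made and the accepting states are merged.  The letter number `j` is coded by `0^j 1 0^j 1`;
the second half is needed to forget `j` reversibly.
-/

set_option autoImplicit false

namespace Pool.Agent.Results.MP_cde0c0_lc.ReversibleForm

/-- `M` is reversible: it has exactly one accepting state `f` and an absorbing state `d`, which is neither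
the initial state nor `f`, such that every letter acts injectively on the states which it does not send
to `d`. -/
def Reversible {β σ : Type} (M : DFA β σ) : Prop :=
  ∃ d f : σ, d ≠ M.start ∧ d ≠ f ∧ M.accept = {f} ∧ (∀ b, M.step d b = d) ∧
    ∀ b s t, M.step s b = M.step t b → M.step s b ≠ d → s = t

/-- the number of transitions of a nondeterministic automaton -/
noncomputable def numTrans {α σ : Type} (M : NFA α σ) : ℕ :=
  {τ : σ × α × σ | τ.2.2 ∈ M.step τ.1 τ.2.1}.ncard

theorem result (k : ℕ) :
    ∃ (F G H : (n t : ℕ) → NFA (Fin k) (Fin n) →
        DFA Bool (Fin (2 * (3 * k + 8) * (3 * n + 2 * t + 3) + 1)))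
      (R : (N : ℕ) → DFA Bool (Fin N) → DFA Bool (Fin N)),
      (∀ n t (A : NFA (Fin k) (Fin n)), numTrans A ≤ t →
        Reversible (F n t A) ∧ Reversible (G n t A) ∧ Reversible (H n t A)) ∧
      (∀ n t m u (A : NFA (Fin k) (Fin n)) (B : NFA (Fin k) (Fin m)), numTrans A ≤ t → numTrans B ≤ u →
        ((∃ x, x ∈ A.accepts ∧ x.reverse ∈ B.accepts) ↔
          ∃ y, y ∈ (F n t A).accepts ∧ y ∈ (G m u B).accepts) ∧
        ((∃ x, x ∈ A.accepts ∧ x ∈ B.accepts) ↔
          ∃ y, y ∈ (F n t A).accepts ∧ y ∈ (H m u B).accepts)) ∧
      (∀ N (M : DFA Bool (Fin N)), Reversible M → Reversible (R N M) ∧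
        ∀ y, y ∈ (R N M).accepts ↔ y.reverse ∈ M.accepts) ∧
      (∀ n (A : DFA (Fin k) (Fin n)), numTrans A.toNFA ≤ k * n ∧ A.toNFA.accepts = A.accepts) :=
  CDEN.normalForm k

end Pool.Agent.Results.MP_cde0c0_lc.ReversibleForm
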